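import Pool.Agent.Helper46.C2.St

/-!
# Module XC of project C2 (MP_b3ce06_al): a computation in a group
-/

set_option autoImplicit false

namespace Pool.Agent.Helper72.C2

open Pool.Agent.Helper46.C2

private theorem cp {G : Type} [Group G] (z x : G) (n : ℕ) : z * x ^ n * z⁻¹ = (z * x * z⁻¹) ^ n :=
  conj_pow.symm

private theorem four {G : Type} [Group G] (x v g : G) (h1 : g * x * g⁻¹ = v ^ 2)
    (h2 : g * v * g⁻¹ = x ^ 2) : (g * g) * x * (g * g)⁻¹ = x ^ 4 := by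
  have e : (g * g) * x * (g * g)⁻¹ = g * (g * x * g⁻¹) * g⁻¹ := by group
  rw [e, h1, cp, h2, ← pow_mul]

private theorem key1 {G : Type} [Group G] (x y : G) (hA : x * y⁻¹ * x = y)
    (hB : y * x ^ 2 * y = (x ^ 2)⁻¹) : y * x ^ 3 * y⁻¹ = (x ^ 3)⁻¹ := by
  have h1 : x ^ 2 * y * x ^ 2 = y⁻¹ := by
    have h2 : y * (x ^ 2 * y * x ^ 2) = 1 := by
      have : y * (x ^ 2 * y * x ^ 2) = (y * x ^ 2 * y) * x ^ 2 := by group
      rw [this, hB]
      group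
    exact eq_inv_of_mul_eq_one_right h2
  have h3 : x ^ 3 * y * x ^ 3 = y := by
    have : x ^ 3 * y * x ^ 3 = x * (x ^ 2 * y * x ^ 2) * x := by group
    rw [this, h1, hA]
  have h4 : x ^ 3 * (y * x ^ 3 * y⁻¹) = 1 := by
    have : x ^ 3 * (y * x ^ 3 * y⁻¹) = (x ^ 3 * y * x ^ 3) * y⁻¹ := by group
    rw [this, h3]
    group
  exact eq_inv_of_mul_eq_one_right h4

private theorem key2 {G : Type} [Group G] (u y : G) (h : y * u * y⁻¹ = u⁻¹) :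
    y ^ 4 * u * (y ^ 4)⁻¹ = u := by
  have h' : y * u⁻¹ * y⁻¹ = u := by
    have : y * u⁻¹ * y⁻¹ = (y * u * y⁻¹)⁻¹ := by group
    rw [this, h, inv_inv]
  have e4 : y ^ 4 = y * (y * (y * y)) := by
    rw [pow_succ, pow_succ, pow_succ, pow_one]
    simp only [mul_assoc]
  have e : y ^ 4 * u * (y ^ 4)⁻¹ = y * (y * (y * (y * u * y⁻¹) * y⁻¹) * y⁻¹) * y⁻¹ := by
    rw [e4]
    simp only [mul_inv_rev, mul_assoc]
  rw [e, h, h', h, h']

theorem hXC : StXC := by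
  intro G _ x v g h1 h2 ha hb hc hx hv
  have z1 : (g * g) * x * (g * g)⁻¹ = x ^ 4 := four x v g h1 h2
  have z2 : (g * g) * v * (g * g)⁻¹ = v ^ 4 := four v x g h2 h1
  have w1 : (g * g * (g * g)) * x * (g * g * (g * g))⁻¹ = x ^ 16 := by
    have e : (g * g * (g * g)) * x * (g * g * (g * g))⁻¹
        = (g * g) * ((g * g) * x * (g * g)⁻¹) * (g * g)⁻¹ := by group
    rw [e, z1, cp, z1, ← pow_mul]
  have w2 : (g * g * (g * g)) * v * (g * g * (g * g))⁻¹ = v ^ 16 := by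
    have e : (g * g * (g * g)) * v * (g * g * (g * g))⁻¹
        = (g * g) * ((g * g) * v * (g * g)⁻¹) * (g * g)⁻¹ := by group
    rw [e, z2, cp, z2, ← pow_mul]
  have c1 : x ^ 1024 * v ^ 256 * x ^ 1024 = (v ^ 256)⁻¹ := by
    set z := g * g * (g * g) with hz
    have e : z * (x ^ 64 * v ^ 16 * x ^ 64) * z⁻¹
        = (z * x ^ 64 * z⁻¹) * (z * v ^ 16 * z⁻¹) * (z * x ^ 64 * z⁻¹) := by group
    have e2 : z * (v ^ 16)⁻¹ * z⁻¹ = (z * v ^ 16 * z⁻¹)⁻¹ := by group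
    have f1 : z * v ^ 16 * z⁻¹ = v ^ 256 := by rw [cp z v, w2, ← pow_mul]
    have f2 : z * x ^ 64 * z⁻¹ = x ^ 1024 := by rw [cp z x, w1, ← pow_mul]
    rw [hc, e2, f1, f2] at e
    exact e.symm
  have x1 : x ^ 1024 = x := by
    have : x ^ 1024 = (x ^ 33) ^ 31 * x := by rw [← pow_mul, ← pow_succ]
    rw [this, hx, one_pow, one_mul]
  have v1 : v ^ 256 = (v ^ 8)⁻¹ := by
    apply eq_inv_of_mul_eq_one_left
    have : v ^ 256 * v ^ 8 = (v ^ 33) ^ 8 := by rw [← pow_add, ← pow_mul]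
    rw [this, hv, one_pow]
  rw [x1, v1, inv_inv] at c1
  have hI := key1 x (v ^ 8) c1 hb
  have hJ := key2 (x ^ 3) (v ^ 8) hI
  have hK : v ^ 32 * x ^ 12 * (v ^ 32)⁻¹ = (x ^ 12)⁻¹ := by
    set z := g * g with hz
    have e : z * (v ^ 8 * x ^ 3 * (v ^ 8)⁻¹) * z⁻¹
        = (z * v ^ 8 * z⁻¹) * (z * x ^ 3 * z⁻¹) * (z * v ^ 8 * z⁻¹)⁻¹ := by group
    have e2 : z * (x ^ 3)⁻¹ * z⁻¹ = (z * x ^ 3 * z⁻¹)⁻¹ := by group
    have f1 : z * v ^ 8 * z⁻¹ = v ^ 32 := by rw [cp z v, z2, ← pow_mul]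
    have f2 : z * x ^ 3 * z⁻¹ = x ^ 12 := by rw [cp z x, z1, ← pow_mul]
    rw [hI, e2, f1, f2] at e
    exact e.symm
  have hL : v ^ 32 * x ^ 12 * (v ^ 32)⁻¹ = x ^ 12 := by
    have e1 : x ^ 12 = (x ^ 3) ^ 4 := by rw [← pow_mul]
    have e2 : v ^ 32 = (v ^ 8) ^ 4 := by rw [← pow_mul]
    rw [e1, e2, cp, hJ]
  have x24 : x ^ 24 = 1 := by
    have h3 : (x ^ 12)⁻¹ = x ^ 12 := hK.symm.trans hL
    have h4 : x ^ 24 = x ^ 12 * x ^ 12 := by rw [← pow_add]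
    rw [h4]
    nth_rewrite 1 [← h3]
    group
  have x3 : x ^ 3 = 1 := by
    have h3 : x ^ 72 = x ^ 66 * x ^ 6 := by rw [← pow_add]
    have h4 : x ^ 72 = (x ^ 24) ^ 3 := by rw [← pow_mul]
    have h5 : x ^ 66 = (x ^ 33) ^ 2 := by rw [← pow_mul]
    have x6 : x ^ 6 = 1 := by
      rw [h4, x24, h5, hx, one_pow, one_pow, one_mul] at h3
      exact h3.symm
    have h6 : x ^ 33 = (x ^ 6) ^ 5 * x ^ 3 := by rw [← pow_mul, ← pow_add]
    rw [hx, x6, one_pow, one_mul] at h6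
    exact h6.symm
  refine ⟨x3, ?_⟩
  have xi : x⁻¹ = x ^ 2 := by
    symm
    apply eq_inv_of_mul_eq_one_left
    rw [← pow_succ]
    exact x3
  have x16 : x ^ 16 = x := by
    have : x ^ 16 = (x ^ 3) ^ 5 * x := by rw [← pow_mul, ← pow_succ]
    rw [this, x3, one_pow, one_mul]
  have x8 : x ^ 8 = x ^ 2 := by
    have : x ^ 8 = (x ^ 3) ^ 2 * x ^ 2 := by rw [← pow_mul, ← pow_add]
    rw [this, x3, one_pow, one_mul]
  rw [xi, hb, x16, x8] at ha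
  have hx2 : (x ^ 2)⁻¹ = x := by rw [← xi, inv_inv]
  rw [hx2] at ha
  have h7 : v ^ 8 * x ^ 2 = 1 := by
    have h8 : x * (v ^ 8 * x ^ 2) = x * 1 := by
      rw [mul_one, ← mul_assoc]
      exact ha.symm
    exact mul_left_cancel h8
  rw [eq_inv_of_mul_eq_one_left h7, hx2]

end Pool.Agent.Helper72.C2
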